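import Pool.Agent.W102.GI.Defs

/-!
# GI-YINJ: the matrix of block transitions determines the pair
-/

set_option autoImplicit false

namespace Pool.Agent.W565.GI

open Finset Pool.Agent.W102.GI

variable {n r : ℕ}

abbrev YT (n r : ℕ) := Equiv.Perm (Fin (2 * n)) × (Fin (2 * n) → Fin (2 * r + 1))

/-- lexicographic comparison -/
def L {K : ℕ} (a b : Fin K × Fin K) : Prop := a.1 < b.1 ∨ (a.1 = b.1 ∧ a.2 ≤ b.2)

instance {K : ℕ} (a b : Fin K × Fin K) : Decidable (L a b) := by unfold L; infer_instance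

theorem L_trans {K : ℕ} {a b c : Fin K × Fin K} (h1 : L a b) (h2 : L b c) : L a c := by
  unfold L at *
  rcases h1 with h1 | ⟨h1, h1'⟩
  · rcases h2 with h2 | ⟨h2, _⟩
    · exact Or.inl (h1.trans h2)
    · exact Or.inl (h2 ▸ h1)
  · rcases h2 with h2 | ⟨h2, h2'⟩
    · exact Or.inl (h1 ▸ h2)
    · exact Or.inr ⟨h1.trans h2, h1'.trans h2'⟩

theorem L_total {K : ℕ} (a b : Fin K × Fin K) : L a b ∨ L b a := by
  unfold L
  rcases lt_trichotomy a.1 b.1 with h | h | h
  · exact Or.inl (Or.inl h)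
  · rcases le_total a.2 b.2 with h' | h'
    · exact Or.inl (Or.inr ⟨h, h'⟩)
    · exact Or.inr (Or.inr ⟨h.symm, h'⟩)
  · exact Or.inr (Or.inl h)

theorem L_antisymm {K : ℕ} {a b : Fin K × Fin K} (h1 : L a b) (h2 : L b a) : a = b := by
  unfold L at *
  rcases h1 with h1 | ⟨h1, h1'⟩
  · rcases h2 with h2 | ⟨h2, _⟩
    · exact absurd (h1.trans h2) (lt_irrefl _)
    · rw [h2] at h1
      exact absurd h1 (lt_irrefl _)
  · rcases h2 with h2 | ⟨h2, h2'⟩
    · rw [h1] at h2
      exact absurd h2 (lt_irrefl _)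
    · exact Prod.ext h1 (le_antisymm h1' h2')

/-- the pair of blocks -/
def g (p : YT n r) (i : Fin (2 * n)) : Fin (2 * r + 1) × Fin (2 * r + 1) := (p.2 i, p.2 (p.1 i))

theorem memY {p : YT n r} (hp : p ∈ Y n r) :
    (∀ i, p.1 (p.1 i) = i) ∧ (∀ i j, i ≤ j → p.2 i ≤ p.2 j) ∧
      (∀ i j, i < j → p.2 i = p.2 j → p.1 i < p.1 j) := by
  unfold Y at hp
  rw [Finset.mem_filter] at hp
  exact ⟨hp.2.1, hp.2.2.2.1, hp.2.2.2.2.2⟩

theorem g_mono {p : YT n r} (hp : p ∈ Y n r) {i j : Fin (2 * n)} (hij : i ≤ j) :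
    L (g p i) (g p j) := by
  obtain ⟨_, h2, h3⟩ := memY hp
  unfold L g
  rcases hij.eq_or_lt with h | h
  · rw [h]
    exact Or.inr ⟨rfl, le_rfl⟩
  · rcases (h2 i j hij).eq_or_lt with h' | h'
    · exact Or.inr ⟨h', h2 _ _ (h3 i j h h').le⟩
    · exact Or.inl h'

theorem cntP (p : YT n r) (P : Fin (2 * r + 1) × Fin (2 * r + 1) → Prop) [DecidablePred P] :
    (univ.filter (fun i => P (g p i))).card = ∑ x ∈ univ.filter P, mat p x.1 x.2 := by
  rw [Finset.card_eq_sum_card_fiberwise (f := g p) (t := univ.filter P)]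
  · refine Finset.sum_congr rfl fun x hx => ?_
    rw [Finset.mem_filter] at hx
    unfold mat
    congr 1
    ext i
    simp only [Finset.mem_filter, Finset.mem_univ, true_and]
    constructor
    · rintro ⟨_, h2⟩
      rw [← h2]
      exact ⟨rfl, rfl⟩
    · rintro ⟨h1, h2⟩
      have h3 : g p i = x := Prod.ext h1 h2
      exact ⟨h3 ▸ hx.2, h3⟩
  · intro i hi
    rw [Finset.mem_coe, Finset.mem_filter] at hi ⊢
    exact ⟨Finset.mem_univ _, hi.2⟩

theorem aux {p p' : YT n r} (hp : p ∈ Y n r) (hp' : p' ∈ Y n r) (hm : mat p = mat p')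
    (i : Fin (2 * n)) (h1 : L (g p i) (g p' i)) (h2 : g p i ≠ g p' i) : False := by
  have h3 := cntP p (fun x => L x (g p i))
  have h4 := cntP p' (fun x => L x (g p i))
  rw [← hm, ← h3] at h4
  have h5 : (Finset.Iic i).card ≤ (univ.filter (fun j => L (g p j) (g p i))).card := by
    apply Finset.card_le_card
    intro j hj
    rw [Finset.mem_Iic] at hj
    rw [Finset.mem_filter]
    exact ⟨Finset.mem_univ _, g_mono hp hj⟩
  have h6 : (univ.filter (fun j => L (g p' j) (g p i))).card ≤ (Finset.Iio i).card := by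
    apply Finset.card_le_card
    intro j hj
    rw [Finset.mem_filter] at hj
    rw [Finset.mem_Iio]
    by_contra h
    exact h2 (L_antisymm h1 (L_trans (g_mono hp' (not_lt.1 h)) hj.2))
  rw [Fin.card_Iic] at h5
  rw [Fin.card_Iio] at h6
  omega

theorem g_eq {p p' : YT n r} (hp : p ∈ Y n r) (hp' : p' ∈ Y n r) (hm : mat p = mat p')
    (i : Fin (2 * n)) : g p i = g p' i := by
  by_contra h
  rcases L_total (g p i) (g p' i) with h1 | h1
  · exact aux hp hp' hm i h1 h
  · exact aux hp' hp hm.symm i h1 (fun h' => h h'.symm)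

theorem incr {p : YT n r} (hp : p ∈ Y n r) {i j : Fin (2 * n)} (hij : i < j)
    (h : p.2 (p.1 i) = p.2 (p.1 j)) : p.1 i < p.1 j := by
  obtain ⟨h1, _, h3⟩ := memY hp
  by_contra hc
  rcases (not_lt.1 hc).eq_or_lt with h4 | h4
  · exact absurd (p.1.injective h4) hij.ne'
  · have h5 := h3 _ _ h4 h.symm
    rw [h1, h1] at h5
    exact absurd (h5.trans hij) (lt_irrefl _)

theorem cnt_sig {p : YT n r} (hp : p ∈ Y n r) (i : Fin (2 * n)) :
    (univ.filter (fun m => p.2 m = p.2 (p.1 i) ∧ m < p.1 i)).card =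
      (univ.filter (fun k => p.2 (p.1 k) = p.2 (p.1 i) ∧ k < i)).card := by
  obtain ⟨h1, _, _⟩ := memY hp
  refine Finset.card_bij (fun m _ => p.1 m) ?_ ?_ ?_
  · intro m hm
    rw [Finset.mem_filter] at hm ⊢
    refine ⟨Finset.mem_univ _, ?_, ?_⟩
    · rw [h1]
      exact hm.2.1
    · by_contra hc
      rcases (not_lt.1 hc).eq_or_lt with h4 | h4
      · have h5 : p.1 i = m := by rw [h4, h1]
        rw [h5] at hm
        exact absurd hm.2.2 (lt_irrefl _)
      · have h5 := incr hp h4 (by rw [h1]; exact hm.2.1.symm)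
        rw [h1] at h5
        exact absurd (h5.trans hm.2.2) (lt_irrefl _)
  · intro a _ b _ h
    exact p.1.injective h
  · intro k hk
    rw [Finset.mem_filter] at hk
    refine ⟨p.1 k, ?_, h1 k⟩
    rw [Finset.mem_filter]
    exact ⟨Finset.mem_univ _, hk.2.1, incr hp hk.2.2 hk.2.1⟩

theorem fin_aux (μ : Fin (2 * n) → Fin (2 * r + 1)) (v : Fin (2 * r + 1)) (a b : Fin (2 * n))
    (ha : μ a = v)
    (h : (univ.filter (fun m => μ m = v ∧ m < a)).card =
      (univ.filter (fun m => μ m = v ∧ m < b)).card) : ¬ a < b := by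
  intro hab
  have h1 : (univ.filter (fun m => μ m = v ∧ m < a)).card <
      (univ.filter (fun m => μ m = v ∧ m < b)).card := by
    apply Finset.card_lt_card
    rw [Finset.ssubset_iff_of_subset]
    · refine ⟨a, ?_, ?_⟩
      · rw [Finset.mem_filter]
        exact ⟨Finset.mem_univ _, ha, hab⟩
      · rw [Finset.mem_filter]
        rintro ⟨_, _, h2⟩
        exact lt_irrefl _ h2
    · intro m hm
      rw [Finset.mem_filter] at hm ⊢
      exact ⟨hm.1, hm.2.1, hm.2.2.trans hab⟩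
  omega

theorem YINJ : Pool.Agent.W102.GI.YINJ := by
  intro n r p hp p' hp' hm
  have hg := g_eq hp hp' hm
  have hμ : p.2 = p'.2 := by
    funext i
    exact congrArg Prod.fst (hg i)
  have hσ : ∀ i, p.2 (p.1 i) = p'.2 (p'.1 i) := fun i => congrArg Prod.snd (hg i)
  have hs : p.1 = p'.1 := by
    apply Equiv.ext
    intro i
    have h1 := cnt_sig hp i
    have h2 := cnt_sig hp' i
    have h3 : (univ.filter (fun k => p.2 (p.1 k) = p.2 (p.1 i) ∧ k < i)).card =
        (univ.filter (fun k => p'.2 (p'.1 k) = p'.2 (p'.1 i) ∧ k < i)).card := by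
      congr 1
      ext k
      rw [Finset.mem_filter, Finset.mem_filter, hσ k, hσ i]
    have h4 : (univ.filter (fun m => p.2 m = p.2 (p.1 i) ∧ m < p.1 i)).card =
        (univ.filter (fun m => p.2 m = p.2 (p.1 i) ∧ m < p'.1 i)).card := by
      rw [h1, h3, ← h2, ← hσ i, ← hμ]
    rcases lt_trichotomy (p.1 i) (p'.1 i) with h5 | h5 | h5
    · exact absurd h5 (fin_aux p.2 _ _ _ rfl h4)
    · exact h5
    · exact absurd h5 (fin_aux p.2 _ _ _ (by rw [hσ i, ← hμ]) h4.symm)
  exact Prod.ext hs hμ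

end Pool.Agent.W565.GI
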